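import Mathlib
import Pool.Agent.Helper79.GL4.GoalsB

set_option linter.unusedVariables false

/-!
# Packet CANB of the GL4 project (MP_27a5f8_al)
-/

namespace GL4

open Module Submodule

theorem canb : CANB := by
  intro F _ _ W _ _ _ G c B C h
  have hB : ∀ x, Pt x → Bc G x = B x := by
    intro x hx
    have hne : B x ≠ ⊤ := by
      intro he
      have h1 := h.dimB x hx
      rw [he, finrank_top] at h1
      have := h.c1
      omega
    apply le_antisymm
    · apply sSup_le
      rintro Z ⟨hZ, hinv⟩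
      by_contra hc
      obtain ⟨y, hy, hyZ, hyB⟩ := exists_pt_not_le hc
      obtain ⟨z, hz, -, hzZ, hzB⟩ := exists_pt_not_le₂ (U := ⊤) (A := Z) (B := B x)
        (fun h1 => hZ (top_le_iff.1 h1)) (fun h1 => hne (top_le_iff.1 h1))
      obtain ⟨g, hg, hgx, hgy⟩ := h.trB x y z hx hy hz hyB hzB
      apply hzZ
      rw [← hgy, ← hinv g hg hgx]
      exact im_mono g hyZ
    · apply le_sSup
      refine ⟨hne, fun g hg hgx => ?_⟩
      rw [← h.eqB g hg x hx, hgx]
  have hC : ∀ H, Hy H → Cc G H = C H := by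
    intro H hH
    have hne : C H ≠ ⊥ := by
      intro he
      have h1 := h.dimC H hH
      rw [he, finrank_bot] at h1
      have := h.c1
      omega
    apply le_antisymm
    · apply sInf_le
      refine ⟨hne, fun g hg hgH => ?_⟩
      rw [← h.eqC g hg H hH, hgH]
    · apply le_sInf
      rintro Z ⟨hZ, hinv⟩
      by_contra hc
      obtain ⟨M', hM', hZM', hCM'⟩ := exists_hy_not_ge hc
      obtain ⟨M, hM, -, hZM, hCM⟩ := exists_hy_not_ge₂ (T := ⊥) (A := Z) (B := C H)
        (fun h1 => hZ (le_bot_iff.1 h1)) (fun h1 => hne (le_bot_iff.1 h1))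
      obtain ⟨g, hg, hgH, hgM⟩ := h.trC H M' M hH hM' hM hCM' hCM
      apply hZM
      rw [← hgM, ← hinv g hg hgH]
      exact im_mono g hZM'
  refine ⟨hB, hC, ?_⟩
  exact
    { c1 := h.c1
      cm := h.cm
      dimB := fun x hx => by rw [hB x hx]; exact h.dimB x hx
      dimC := fun H hH => by rw [hC H hH]; exact h.dimC H hH
      selfB := fun x hx => by rw [hB x hx]; exact h.selfB x hx
      symB := fun x y hx hy => by rw [hB x hx, hB y hy]; exact h.symB x y hx hy
      adj := fun x H hx hH => by rw [hB x hx, hC H hH]; exact h.adj x H hx hH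
      eqB := fun g hg x hx => by rw [hB x hx, hB _ hx.im]; exact h.eqB g hg x hx
      eqC := fun g hg H hH => by rw [hC H hH, hC _ hH.im]; exact h.eqC g hg H hH
      ptT := h.ptT
      hyT := h.hyT
      trB := fun x y z hx hy hz => by rw [hB x hx]; exact h.trB x y z hx hy hz
      trC := fun H H₁ H₂ hH hH₁ hH₂ => by rw [hC H hH]; exact h.trC H H₁ H₂ hH hH₁ hH₂
      trBH := fun x H₁ H₂ hx hH₁ hH₂ => by rw [hB x hx]; exact h.trBH x H₁ H₂ hx hH₁ hH₂
      trCx := fun H x y hH hx hy => by rw [hC H hH]; exact h.trCx H x y hH hx hy }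

end GL4
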