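import Mathlib
import Pool.Agent.Helper79.GL4.GoalsA

set_option linter.unusedVariables false

/-!
# Packet MT2 of the GL4 project (MP_27a5f8_al)
-/

namespace GL4

open Module Submodule

namespace MT2Proof

attribute [local instance] GL4.subAct

lemma eq_one_of_pow {F : Type} [Field F] {p : ℕ} [Fact p.Prime] [CharP F p] {d : F} {k : ℕ}
    (h : d ^ p ^ k = 1) : d = 1 := by
  have h1 : (d - 1) ^ p ^ k = 0 := by rw [sub_pow_char_pow, h, one_pow, sub_self]
  exact sub_eq_zero.mp (pow_eq_zero_iff (pow_ne_zero k (Fact.out : p.Prime).ne_zero) |>.mp h1)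

theorem transv_mem {F : Type} [Field F] [Finite F] {V : Type} [AddCommGroup V] [Module F V]
    [FiniteDimensional F V] (h2 : finrank F V = 2) (K : Subgroup (V ≃ₗ[F] V)) (hK : TwoTrans K)
    (g : V ≃ₗ[F] V) (hg : IsTransv g) : g ∈ K := by
  obtain ⟨hg1, f, u, hfu, hgv⟩ := hg
  have hu : u ≠ 0 := by
    rintro rfl
    apply hg1
    ext v
    rw [hgv]; simp
  have hf : f ≠ 0 := by
    rintro rfl
    apply hg1
    ext v
    rw [hgv]; simp
  have hP : Pt (F ∙ u) := pt_span hu
  have hker : LinearMap.ker f = F ∙ u := by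
    symm
    apply Submodule.eq_of_le_of_finrank_eq
    · rw [span_singleton_le_iff_mem]; exact hfu
    · have := hy_ker hf
      rw [Hy, h2] at this
      rw [hP]; omega
  obtain ⟨w, hw⟩ : ∃ w, f w ≠ 0 := by
    by_contra hc
    push Not at hc
    exact hf (LinearMap.ext hc)
  have hw0 : w ≠ 0 := by rintro rfl; exact hw (map_zero f)
  have hwu : (F ∙ w) ≠ (F ∙ u) := by
    intro h
    have h1 : w ∈ F ∙ u := by rw [← h]; exact mem_span_singleton_self w
    rw [← hker] at h1
    exact hw h1
  obtain ⟨p, hp⟩ := CharP.exists F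
  have := Fintype.ofFinite F
  obtain ⟨n, hpp, hcard⟩ := FiniteField.card F p
  have : Fact p.Prime := ⟨hpp⟩
  obtain ⟨S, hS⟩ := exists_isSyl (p := p) (K ⊓ MulAction.stabilizer (V ≃ₗ[F] V) (F ∙ u))
  have hXc : Set.ncard {x : Submodule F V | Pt x ∧ x ≠ F ∙ u} = p ^ (n : ℕ) := by
    have e : {x : Submodule F V | Pt x ∧ x ≠ F ∙ u} = {x : Submodule F V | Pt x} \ {F ∙ u} := by
      ext x; simp
    rw [e, Set.ncard_sdiff_singleton_of_mem (by exact hP), ← Nat.card_coe_set_eq]
    have := card_pts (F := F) (V := V)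
    rw [h2] at this
    have h3 : br (Nat.card F) 2 = Nat.card F + 1 := by
      simp [br, Finset.sum_range_succ, add_comm]
    rw [h3] at this
    have h4 : Nat.card {x : Submodule F V | Pt x} = Nat.card F + 1 := this
    rw [h4, Nat.card_eq_fintype_card, hcard]; rfl
  have htr := trans_of_pow (p := p) (A := V ≃ₗ[F] V) (α := Submodule F V) hS.1 hS.2.2
    (X := {x : Submodule F V | Pt x ∧ x ≠ F ∙ u}) (Set.toFinite _) ?_ ?_ hXc
  · have hx1 : (F ∙ w) ∈ {x : Submodule F V | Pt x ∧ x ≠ F ∙ u} := ⟨pt_span hw0, hwu⟩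
    have hgu : g u = u := by rw [hgv, hfu]; simp
    have hx2 : im g (F ∙ w) ∈ {x : Submodule F V | Pt x ∧ x ≠ F ∙ u} := by
      refine ⟨(pt_span hw0).im, fun h => hwu ?_⟩
      have h1 : im g (F ∙ u) = F ∙ u := by rw [im_span_singleton, hgu]
      rw [← h1] at h
      exact (im_inj g).1 h
    obtain ⟨s, hs, hsx⟩ := htr _ hx1 _ hx2
    change im s (F ∙ w) = im g (F ∙ w) at hsx
    have hsK := (hS.1 hs).1
    have hsP : im s (F ∙ u) = F ∙ u := (hS.1 hs).2
    -- `s` has `p`-power order
    obtain ⟨k, hk⟩ := hS.2.1 ⟨s, hs⟩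
    have hk' : s ^ p ^ k = 1 := congrArg Subtype.val hk
    -- eigenvalue on `u`
    obtain ⟨c, hc⟩ : ∃ c : F, s u = c • u := by
      have h1 : s u ∈ im s (F ∙ u) := apply_mem_im (mem_span_singleton_self u)
      rw [hsP] at h1
      obtain ⟨c, hc⟩ := mem_span_singleton.1 h1
      exact ⟨c, hc.symm⟩
    have hcp : ∀ m : ℕ, (s ^ m) u = c ^ m • u := by
      intro m
      induction m with
      | zero => simp
      | succ m ih =>
        rw [pow_succ, LinearEquiv.mul_apply, hc, map_smul, ih, smul_smul, pow_succ, mul_comm]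
    have hc1 : c = 1 := by
      apply eq_one_of_pow (p := p) (k := k)
      have h1 := hcp (p ^ k)
      rw [hk'] at h1
      have h3 : (1 : F) • u = c ^ p ^ k • u := by rw [one_smul]; exact h1
      exact (smul_left_injective F hu h3).symm
    -- every vector
    have hdec : ∀ v : V, ∃ a : F, v = a • u + (f v / f w) • w := by
      intro v
      have h1 : v - (f v / f w) • w ∈ LinearMap.ker f := by
        rw [LinearMap.mem_ker, map_sub, map_smul, smul_eq_mul, div_mul_cancel₀ _ hw, sub_self]
      rw [hker] at h1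
      obtain ⟨a, ha⟩ := mem_span_singleton.1 h1
      exact ⟨a, by rw [ha]; abel⟩
    have hd : ∀ v, f (s v) = (f (s w) / f w) * f v := by
      intro v
      obtain ⟨a, ha⟩ := hdec v
      have : f (s v) = (f v / f w) * f (s w) := by
        conv_lhs => rw [ha]
        rw [map_add, map_smul, map_smul, map_add, map_smul, map_smul, hc, map_smul, hfu]
        simp
      rw [this]; field_simp
    have hdp : ∀ m : ℕ, ∀ v, f ((s ^ m) v) = (f (s w) / f w) ^ m * f v := by
      intro m
      induction m with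
      | zero => intro v; simp
      | succ m ih =>
        intro v
        rw [pow_succ, LinearEquiv.mul_apply, ih, hd v, pow_succ, mul_assoc]
    have hd1 : f (s w) / f w = 1 := by
      apply eq_one_of_pow (p := p) (k := k)
      have h1 := hdp (p ^ k) w
      rw [hk'] at h1
      have h3 : f w = (f (s w) / f w) ^ p ^ k * f w := h1
      exact (mul_right_cancel₀ hw (by rw [one_mul]; exact h3)).symm
    have hfs : f (s w) = f w := by rw [div_eq_one_iff_eq hw] at hd1; exact hd1
    -- `s w = g w`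
    have hsw : s w = g w := by
      have h1 : s w ∈ im g (F ∙ w) := by
        rw [← hsx]; exact apply_mem_im (mem_span_singleton_self w)
      rw [im_span_singleton] at h1
      obtain ⟨b, hb⟩ := mem_span_singleton.1 h1
      have h3 : f (g w) = f w := by rw [hgv, map_add, map_smul, hfu]; simp
      have h4 : b * f w = 1 * f w := by
        have h6 : f (s w) = b * f w := by rw [← hb, map_smul, smul_eq_mul, h3]
        rw [one_mul, ← h6, hfs]
      have h5 := mul_right_cancel₀ hw h4
      rw [← hb, h5, one_smul]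
    have hsg : s = g := by
      apply LinearEquiv.ext
      intro v
      obtain ⟨a, ha⟩ := hdec v
      rw [ha, map_add, map_add, map_smul, map_smul, map_smul, map_smul, hsw, hc, hc1, one_smul,
        hgu]
    rw [← hsg]; exact hsK
  · rintro s hs x ⟨hx, hxu⟩
    have hsP : im s (F ∙ u) = F ∙ u := hs.2
    refine ⟨hx.im, fun h => hxu ?_⟩
    have h' : im s x = F ∙ u := h
    rw [← hsP] at h'
    exact (im_inj s).1 h'
  · rintro x ⟨hx, hxu⟩ y ⟨hy, hyu⟩
    obtain ⟨s, hs, h1, h3⟩ := hK (F ∙ u) x (F ∙ u) y hP hx hP hy hxu.symm hyu.symm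
    exact ⟨s, ⟨hs, h1⟩, h3⟩

end MT2Proof

theorem mt2 (h : SLG) : MT2 := by
  intro F _ _ V _ _ _ h2 K hK
  left
  exact h F V K fun g hg => MT2Proof.transv_mem h2 K hK g hg

end GL4
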